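import Mathlib

set_option autoImplicit false

namespace Pool.Agent.H.MP_be768e_al

open List

variable {α : Type} [LinearOrder α]

/-- `u` has a weakly increasing subsequence of length `k` with letters in `[p, q]`. -/
def Inc (u : List α) (p q : α) (k : ℕ) : Prop :=
  ∃ s : List α, s <+ u ∧ s.Pairwise (· ≤ ·) ∧ (∀ x ∈ s, p ≤ x ∧ x ≤ q) ∧ s.length = k

def Le (u v : List α) : Prop := ∀ p q k, Inc u p q k → Inc v p q k

theorem Le.refl (u : List α) : Le u u := fun _ _ _ h => h

theorem Le.trans {u v w : List α} (h : Le u v) (g : Le v w) : Le u w :=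
  fun p q k i => g p q k (h p q k i)

theorem Le.append {u v u' v' : List α} (h : Le u u') (g : Le v v') : Le (u ++ v) (u' ++ v') := by
  rintro p q k ⟨s, h1, h2, h3, rfl⟩
  obtain ⟨s1, s2, rfl, a1, a2⟩ := sublist_append_iff.1 h1
  rw [pairwise_append] at h2
  obtain ⟨b1, b2, b3⟩ := h2
  rcases eq_nil_or_concat s1 with rfl | ⟨t, r, rfl⟩
  · obtain ⟨t, c1, c2, c3, c4⟩ := g p q _ ⟨s2, a2, b2, fun x hx => h3 x (by simp [hx]), rfl⟩
    exact ⟨t, c1.trans (sublist_append_right _ _), c2, c3, by simpa using c4⟩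
  · rw [concat_eq_append] at *
    have hr := h3 r (by simp)
    obtain ⟨t1, c1, c2, c3, c4⟩ := h p r _ ⟨t ++ [r], a1, b1, fun x hx =>
      ⟨(h3 x (by simp only [mem_append] at hx ⊢; exact Or.inl hx)).1, by
        rcases mem_append.1 hx with hx | hx
        · exact (pairwise_append.1 b1).2.2 x hx r (by simp)
        · simp at hx; exact hx.le⟩, rfl⟩
    obtain ⟨t2, d1, d2, d3, d4⟩ := g r q _ ⟨s2, a2, b2, fun x hx =>
      ⟨b3 r (by simp) x hx, (h3 x (by simp [hx])).2⟩, rfl⟩
    refine ⟨t1 ++ t2, c1.append d1, pairwise_append.2 ⟨c2, d2, fun x hx y hy =>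
      (c3 x hx).2.trans (d3 y hy).1⟩, fun x hx => ?_, by simp [c4, d4]; omega⟩
    rcases mem_append.1 hx with hx | hx
    · exact ⟨(c3 x hx).1, (c3 x hx).2.trans hr.2⟩
    · exact ⟨hr.1.trans (d3 x hx).1, (d3 x hx).2⟩

theorem Le.count {u v : List α} (h : Le u v) (x : α) : u.count x ≤ v.count x := by
  obtain ⟨s, h1, -, h3, h4⟩ := h x x (u.count x) ⟨replicate (u.count x) x,
    replicate_sublist_iff.2 le_rfl, by simp, by simp, by simp⟩
  have : s = replicate (u.count x) x :=
    eq_replicate_iff.2 ⟨h4, fun y hy => le_antisymm (h3 y hy).2 (h3 y hy).1⟩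
  rw [this] at h1
  exact replicate_sublist_iff.1 h1

theorem Le.mem {u v : List α} (h : Le u v) {x : α} (hx : x ∈ u) : x ∈ v :=
  count_pos_iff.1 ((count_pos_iff.2 hx).trans_le (h.count x))

/-- Descents between consecutive letters are visible. -/
theorem descent {u v : List α} (h : Le u v) (g : Le v u) {x y : α} (hxy : x < y)
    (hc : ∀ z, x ≤ z → z ≤ y → z = x ∨ z = y) (hu : [y, x] <+ u) : [y, x] <+ v := by
  by_contra hv
  let P : α → Bool := fun z => decide (z = x ∨ z = y)
  have len : ∀ w : List α, (w.filter P).length = w.count x + w.count y := by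
    intro w
    induction w with
    | nil => simp
    | cons a w ih =>
      by_cases a1 : a = x
      · subst a1; simp [P, count_cons, hxy.ne, hxy.ne'] at ih ⊢; omega
      · by_cases a2 : a = y
        · subst a2; simp [P, count_cons, hxy.ne, hxy.ne'] at ih ⊢; omega
        · simp [P, count_cons, a1, a2] at ih ⊢; omega
  have s1 : (v.filter P).Pairwise (· ≤ ·) := by
    rw [pairwise_iff_forall_sublist]
    intro a b hab
    have ha : a = x ∨ a = y := by simpa [P] using (mem_filter.1 (hab.subset (by simp : a ∈ [a, b]))).2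
    have hb : b = x ∨ b = y := by simpa [P] using (mem_filter.1 (hab.subset (by simp : b ∈ [a, b]))).2
    rcases ha with rfl | rfl <;> rcases hb with rfl | rfl
    · exact le_rfl
    · exact hxy.le
    · exact absurd (hab.trans filter_sublist) hv
    · exact le_rfl
  obtain ⟨s, h1, h2, h3, h4⟩ := g x y _ ⟨v.filter P, filter_sublist, s1, fun z hz => by
    have : z = x ∨ z = y := by simpa [P] using (mem_filter.1 hz).2
    rcases this with rfl | rfl
    · exact ⟨le_rfl, hxy.le⟩
    · exact ⟨hxy.le, le_rfl⟩, rfl⟩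
  have e1 : s.filter P = s := filter_eq_self.2 fun z hz => by
    simpa [P] using hc z (h3 z hz).1 (h3 z hz).2
  have e2 : s <+ u.filter P := e1 ▸ h1.filter P
  have e3 : s = u.filter P := e2.eq_of_length_le (by
    rw [h4, len, len]; exact add_le_add (h.count x) (h.count y))
  have e4 : [y, x] <+ s := by
    have := hu.filter P
    rw [← e3] at this
    simpa [P, filter_cons] using this
  exact absurd (pairwise_iff_forall_sublist.1 h2 e4) (not_le.2 hxy)

/-- A pattern `z y x` of three consecutive letters survives replacing a factor, provided it can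
be completed outside the factor. -/
theorem step {a b u v : List α} (h : Le u v) (g : Le v u) {x y z : α} (hxy : x < y) (hyz : y < z)
    (h1 : ∀ t, x ≤ t → t ≤ y → t = x ∨ t = y) (h2 : ∀ t, y ≤ t → t ≤ z → t = y ∨ t = z)
    (ho : x ∈ b ∨ z ∈ a) (hu : [z, y, x] <+ a ++ u ++ b) : [z, y, x] <+ a ++ v ++ b := by
  obtain ⟨s, s3, e, hs, a3⟩ := sublist_append_iff.1 hu
  obtain ⟨s1, s2, rfl, a1, a2⟩ := sublist_append_iff.1 hs
  have one : ∀ t, [t] <+ u → [t] <+ v := fun t ht =>
    singleton_sublist.2 (h.mem (singleton_sublist.1 ht))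
  by_cases q : s2 <+ v
  · rw [e]; exact (a1.append q).append a3
  rcases s1 with _ | ⟨k1, _ | ⟨k2, _ | ⟨k3, s1⟩⟩⟩ <;>
    rcases s2 with _ | ⟨l1, _ | ⟨l2, _ | ⟨l3, s2⟩⟩⟩ <;>
    first
    | exact absurd (nil_sublist _) q
    | exact absurd (one _ a2) q
    | skip
  · simp at e
    obtain ⟨rfl, rfl, -⟩ := e
    exact absurd (descent h g hyz h2 a2) q
  · simp at e
    obtain ⟨rfl, rfl, rfl, rfl, rfl⟩ := e
    rcases ho with ho | ho
    · have := descent h g hyz h2 ((by simp : [z, y] <+ [z, y, x]).trans a2)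
      exact ((nil_sublist a).append this).append (singleton_sublist.2 ho)
    · have := descent h g hxy h1 ((by simp : [y, x] <+ [z, y, x]).trans a2)
      exact ((singleton_sublist.2 ho).append this).append (nil_sublist b)
  · simp at e
    obtain ⟨rfl, rfl, rfl, -⟩ := e
    exact absurd (descent h g hxy h1 a2) q
  all_goals simp at e

end Pool.Agent.H.MP_be768e_al
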