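import Mathlib
import Pool.Agent.H.MP_be768e_al.A

set_option autoImplicit false

namespace Pool.Agent.H.MP_be768e_al

open List

theorem pos {x : ℕ} {t l : List ℕ} (h : x :: t <+ l) : ∃ l1 l2, l = l1 ++ x :: l2 ∧ t <+ l2 := by
  obtain ⟨r1, r2, rfl, h1, h2⟩ := cons_sublist_iff.1 h
  obtain ⟨l1, l2, rfl⟩ := append_of_mem h1
  exact ⟨l1, l2 ++ r2, by simp, h2.trans (sublist_append_right _ _)⟩

theorem split {c : ℕ} {s A B : List ℕ} (h : s <+ A ++ c :: B) (h1 : c ∉ A) (h2 : c ∉ B) :
    ∃ s1 s2, s = s1 ++ s2 ∧ s1 <+ A ∧ c ∉ s1 ∧ c ∉ s2.tail ∧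
      ∀ d, d ≠ c → s2.count d ≤ B.count d := by
  obtain ⟨s1, s2, rfl, a1, a2⟩ := sublist_append_iff.1 h
  refine ⟨s1, s2, rfl, a1, fun k => h1 (a1.subset k), fun k => h2 (a2.tail.subset k),
    fun d hd => ?_⟩
  have := a2.count_le d
  rwa [count_cons_of_ne hd.symm] at this

theorem lemA {a b c d : ℕ} (ab : a ≠ b) (bc : b ≠ c) (bd : b ≠ d) (cd : c ≠ d)
    {w A B : List ℕ} (hw : w = A ++ c :: B) (hA : c ∉ A) (hB : c ∉ B) (h3 : w.count b = 3)
    (hT : ∀ δ, δ <:+ w → ∀ t, t <+ δ → t <+ [b, b, b, c, d, d, d] → t.length ≤ δ.count a + 1)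
    (h0 : ∃ δ k, δ <:+ w ∧ 1 ≤ k ∧ k ≤ δ.count b ∧ δ.count a + 1 ≤ k)
    (hba : [b, a] <+ B) {s : List ℕ} (hs : b :: s <+ w)
    (hs' : s = [b, b, d] ∨ s = [b, c, d] ∨ s = [b, d, d] ∨ s = [c, d, d] ∨ s = [d, d, d]) :
    s ≠ [b, b, d] ∧ (2 ≤ B.count d ∨ s = [d, d, d]) := by
  obtain ⟨δ0, k, p0, k1, k2, k3⟩ := h0
  obtain ⟨γ, δ, e, hδ⟩ := pos hs
  have p1 : b :: δ <:+ w := e ▸ suffix_append _ _
  have n1 : 3 ≤ δ.count a := by
    have := hT _ p1 (b :: s) (hδ.cons_cons b) (by
      rcases hs' with rfl | rfl | rfl | rfl | rfl <;>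
        repeat (first | exact nil_sublist _ | apply Sublist.cons_cons | apply Sublist.cons))
    rw [count_cons_of_ne ab.symm] at this
    rcases hs' with rfl | rfl | rfl | rfl | rfl <;> simp at this <;> omega
  have n0 : δ0.count b ≤ 3 := h3 ▸ p0.sublist.count_le b
  have p2 : δ0 <:+ δ := by
    rcases suffix_or_suffix_of_suffix p0 ((suffix_cons b δ).trans p1) with h | h
    · exact h
    · have := h.sublist.count_le a
      omega
  have n2 : δ.count b ≤ 2 := by
    have := p1.sublist.count_le b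
    simp at this
    omega
  have n3 := p2.sublist.count_le b
  have cdd : s = [c, d, d] → 2 ≤ B.count d := by
    rintro rfl
    obtain ⟨s1, s2, f1, -, f2, -, f4⟩ := split (hw ▸ (sublist_cons_self _ _).trans hs) hA hB
    have := f4 d cd.symm
    rcases s1 with _ | ⟨y, s1⟩
    · simp at f1; subst f1; simpa [count_cons, cd] using this
    · simp at f1 f2; exact absurd f1.1 f2.1
  by_cases hk : k = 1
  · subst hk
    obtain ⟨β1, β2, e1, g1⟩ := pos hba
    have p3 : β2 <:+ w := by
      rw [hw, e1]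
      exact ⟨A ++ c :: β1 ++ [b], by simp⟩
    have p4 : δ0 <:+ β2 := by
      rcases suffix_or_suffix_of_suffix p0 p3 with h | h
      · exact h
      · have := count_pos_iff.2 (h.subset (singleton_sublist.1 g1))
        omega
    have n4 : A.count b ≤ 1 := by
      have := p4.sublist.count_le b
      rw [hw, e1] at h3
      simp [count_cons] at h3
      omega
    obtain ⟨l1, l2, e2⟩ := append_of_mem (count_pos_iff.1 k2)
    have p5 : b :: l2 <:+ δ0 := e2 ▸ suffix_append _ _
    have n5 : d ∉ l2 := fun h => by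
      have q1 := hT _ (p5.trans p0) [b, d] ((singleton_sublist.2 h).cons_cons b) (by
        repeat (first | exact nil_sublist _ | apply Sublist.cons_cons | apply Sublist.cons))
      have q2 := p5.sublist.count_le a
      have q3 : [b, d].length = 2 := rfl
      omega
    obtain ⟨s1, s2, f1, f0, f2, f3, f4⟩ := split (hw ▸ hs) hA hB
    have f5 := (f0.count_le b).trans n4
    have f6 := f4 d cd.symm
    rcases hs' with rfl | rfl | rfl | rfl | rfl
    · exfalso
      obtain ⟨z, e3⟩ := p5.trans p0
      rw [← e3] at hs h3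
      obtain ⟨t1, t2, j1, j2, j3⟩ := sublist_append_iff.1 hs
      have j4 : d ∉ t2 := fun h => by
        have := j3.subset h
        simp [bd.symm, n5] at this
      have j5 := j2.count_le b
      rcases eq_nil_or_concat t2 with rfl | ⟨t, r, rfl⟩
      · simp at j1
        subst j1
        simp [count_cons, bd.symm] at j5 h3
        omega
      · have := congrArg getLast? j1
        simp at this j4
        exact j4.2 this
    · exfalso
      rcases s1 with _ | ⟨y1, _ | ⟨y2, s1⟩⟩
      · simp at f1; subst f1; simp at f3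
      · simp at f1; obtain ⟨-, rfl⟩ := f1; simp at f3
      · simp at f1; obtain ⟨rfl, rfl, -⟩ := f1; simp at f5
    · refine ⟨by simp [bd.symm], Or.inl ?_⟩
      rcases s1 with _ | ⟨y1, _ | ⟨y2, s1⟩⟩
      · simp at f1; subst f1; simpa [count_cons, bd] using f6
      · simp at f1; obtain ⟨-, rfl⟩ := f1; simpa [count_cons, bd] using f6
      · simp at f1; obtain ⟨rfl, rfl, -⟩ := f1; simp at f5
    · exact ⟨by simp [bc.symm], Or.inl (cdd rfl)⟩
    · exact ⟨by simp [bd.symm], Or.inr rfl⟩
  · have nb : ∀ x y, s = [b, x, y] → [b, x, y] <+ [b, b, b, c, d, d, d] → False := by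
      rintro x y rfl hh
      obtain ⟨l1, l2, e2, g2⟩ := pos hδ
      have p5 : b :: l2 <:+ δ := e2 ▸ suffix_append _ _
      have := hT _ (p5.trans ((suffix_cons b δ).trans p1)) _ (g2.cons_cons b) hh
      rcases suffix_or_suffix_of_suffix p2 ((suffix_cons b l2).trans p5) with h | h
      · have := h.sublist.count_le b
        have := p5.sublist.count_le b
        simp at *
        omega
      · have := h.sublist.count_le a
        rw [count_cons_of_ne ab.symm] at *
        simp at *
        omega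
    rcases hs' with rfl | rfl | rfl | rfl | rfl
    · exact (nb _ _ rfl (by
        repeat (first | exact nil_sublist _ | apply Sublist.cons_cons | apply Sublist.cons))).elim
    · exact (nb _ _ rfl (by
        repeat (first | exact nil_sublist _ | apply Sublist.cons_cons | apply Sublist.cons))).elim
    · exact (nb _ _ rfl (by
        repeat (first | exact nil_sublist _ | apply Sublist.cons_cons | apply Sublist.cons))).elim
    · exact ⟨by simp [bc.symm], Or.inl (cdd rfl)⟩
    · exact ⟨by simp [bd.symm], Or.inr rfl⟩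

end Pool.Agent.H.MP_be768e_al
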