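import Mathlib
import Pool.Agent.H.MP_be768e_al.B

set_option autoImplicit false

namespace Pool.Agent.H.MP_be768e_al

open List

def X (m : ℕ) : List ℕ := replicate m 4 ++ [1, 1, 3, 3] ++ replicate m 0

def U (m : ℕ) : List ℕ := 3 :: 2 :: (X m ++ [1])

def V (m : ℕ) : List ℕ := 3 :: (X m ++ [2, 1])

theorem X2 (m : ℕ) : 2 ∉ X m := by simp [X, mem_replicate]

theorem UV (m : ℕ) : Le (U m) (V m) := by
  rintro p q k ⟨s, h1, h2, h3, rfl⟩
  have i1 : X m ++ [1] <+ X m ++ [2, 1] := (Sublist.refl _).append (by simp)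
  by_cases h : 2 ∈ s
  · have n2 : 2 ∉ X m ++ [1] := by simp [X2]
    have : ∃ t, s = 2 :: t ∧ t <+ X m ++ [1] := by
      rcases sublist_cons_iff.1 h1 with g | ⟨r, rfl, g⟩
      · rcases sublist_cons_iff.1 g with g | g
        · exact absurd (g.subset h) n2
        · exact g
      · simp at h h2
        exact absurd (h2.1 2 h) (by omega)
    obtain ⟨t, rfl, ht⟩ := this
    rcases t with _ | ⟨y, t⟩
    · exact ⟨[2], by simp [V], by simp, h3, rfl⟩
    · have a1 : ∀ z ∈ y :: t, 3 ≤ z := fun z hz => by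
        have := (pairwise_cons.1 h2).1 z hz
        have : z ≠ 2 := fun e => n2 (ht.subset (e ▸ hz))
        omega
      refine ⟨3 :: y :: t, (ht.trans i1).cons_cons 3, pairwise_cons.2 ⟨a1, (pairwise_cons.1 h2).2⟩,
        fun z hz => ?_, rfl⟩
      rcases mem_cons.1 hz with rfl | hz
      · have := h3 2 (by simp)
        have := h3 y (by simp)
        have := a1 y (by simp)
        omega
      · exact h3 z (mem_cons_of_mem _ hz)
  · refine ⟨s, ?_, h2, h3, rfl⟩
    rcases sublist_cons_iff.1 h1 with g | ⟨r, rfl, g⟩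
    · rcases sublist_cons_iff.1 g with g | ⟨r, rfl, g⟩
      · exact (g.trans i1).cons 3
      · simp at h
    · rcases sublist_cons_iff.1 g with g | ⟨r, rfl, g⟩
      · exact (g.trans i1).cons_cons 3
      · simp at h

theorem VU (m : ℕ) : Le (V m) (U m) := by
  rintro p q k ⟨s, h1, h2, h3, rfl⟩
  obtain ⟨s1, s2, rfl, a1, a2⟩ := sublist_append_iff.1 (show s <+ (3 :: X m) ++ [2, 1] from h1)
  have i1 : 3 :: X m <+ 3 :: 2 :: X m := (sublist_cons_self _ _).cons_cons 3
  obtain ⟨b1, b2, b3⟩ := pairwise_append.1 h2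
  have : s2 = [] ∨ s2 = [1] ∨ s2 = [2] ∨ s2 = [2, 1] := by
    have := mem_sublists.2 a2
    simp [sublists] at this
    tauto
  rcases this with rfl | rfl | rfl | rfl
  · exact ⟨_, show _ <+ (3 :: 2 :: X m) ++ [1] from (a1.trans i1).append (by simp), h2, h3, rfl⟩
  · exact ⟨_, show _ <+ (3 :: 2 :: X m) ++ [1] from (a1.trans i1).append (by simp), h2, h3, rfl⟩
  · rcases s1 with _ | ⟨y, t⟩
    · exact ⟨[2], by simp [U], by simp, h3, rfl⟩
    · have a1 : ∀ z ∈ y :: t, z ≤ 1 := fun z hz => by
        have := b3 z hz 2 (by simp)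
        have : z ≠ 2 := fun e => by
          have := a1.subset (e ▸ hz)
          simp [X2] at this
        omega
      refine ⟨y :: t ++ [1], show _ <+ (3 :: 2 :: X m) ++ [1] from
        (‹y :: t <+ 3 :: X m›.trans i1).append (by simp), pairwise_append.2 ⟨b1, by simp,
          fun z hz r hr => by simp at hr; subst hr; exact a1 z hz⟩, fun z hz => ?_, by simp⟩
      rcases mem_append.1 hz with hz | hz
      · exact h3 z (mem_append_left _ hz)
      · have := h3 2 (by simp)
        have := h3 y (by simp)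
        have := a1 y (by simp)
        simp at hz
        omega
  · simp at b2

theorem Ubound {m : ℕ} (hm : 3 ≤ m) {s : List ℕ} (h : s <+ U m) (g : s.Pairwise (· ≤ ·)) :
    s.length ≤ m + 1 := by
  have e : U m = [3, 2] ++ (replicate m 4 ++ ([1, 1, 3, 3] ++ (replicate m 0 ++ [1]))) := by
    simp [U, X]
  rw [e] at h
  obtain ⟨s1, t, rfl, a1, h⟩ := sublist_append_iff.1 h
  obtain ⟨s2, t, rfl, a2, h⟩ := sublist_append_iff.1 h
  obtain ⟨s3, t, rfl, a3, h⟩ := sublist_append_iff.1 h
  obtain ⟨s4, s5, rfl, a4, a5⟩ := sublist_append_iff.1 h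
  obtain ⟨i, hi, rfl⟩ := sublist_replicate_iff.1 a2
  obtain ⟨j, hj, rfl⟩ := sublist_replicate_iff.1 a4
  have l5 := a5.length_le
  have l1 : s1.length ≤ 1 := by
    have : ∀ s ∈ ([3, 2] : List ℕ).sublists, s.Pairwise (· ≤ ·) → s.length ≤ 1 := by decide
    exact this _ (mem_sublists.2 a1) (pairwise_append.1 g).1
  rcases Nat.eq_zero_or_pos i with rfl | hi0
  · rcases Nat.eq_zero_or_pos j with rfl | hj0
    · have : ∀ s ∈ ([3, 2, 1, 1, 3, 3, 1] : List ℕ).sublists, s.Pairwise (· ≤ ·) →
          s.length ≤ 4 := by decide +kernel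
      have := this _ (mem_sublists.2 (a1.append (a3.append a5))) (by simpa using g)
      simp at this ⊢
      omega
    · simp only [replicate_zero, nil_append, pairwise_append] at g
      have z : (0 : ℕ) ∈ replicate j 0 ++ s5 := by simp [mem_replicate, hj0.ne']
      have b1 : s1 = [] := eq_nil_iff_forall_not_mem.2 fun x hx => by
        have := g.2.2 x hx 0 (mem_append_right _ z)
        have := a1.subset hx
        simp at this
        omega
      have b3 : s3 = [] := eq_nil_iff_forall_not_mem.2 fun x hx => by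
        have := g.2.1.2.2 x hx 0 z
        have := a3.subset hx
        simp at this
        omega
      simp [b1, b3] at l5 ⊢
      omega
  · have b : s3 ++ (replicate j 0 ++ s5) = [] := eq_nil_iff_forall_not_mem.2 fun x hx => by
      have := (pairwise_append.1 (pairwise_append.1 g).2.1).2.2 4
        (by simp [mem_replicate, hi0.ne']) x hx
      have := (a3.append (a4.append a5)).subset hx
      simp [mem_replicate] at this
      omega
    simp [b]
    omega

theorem Umid {m : ℕ} {s : List ℕ} (h : s <+ U m) (g : ∀ x ∈ s, 1 ≤ x ∧ x ≤ 3) :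
    s <+ [3, 2, 1, 1, 3, 3, 1] := by
  have := h.filter (fun x => decide (1 ≤ x ∧ x ≤ 3))
  rw [filter_eq_self.2 (by simpa using g)] at this
  simpa [U, X, filter_cons] using this

theorem two {x y : ℕ} (hxy : y = x + 1) {s : List ℕ} (g : s.Pairwise (· ≤ ·))
    (h : ∀ z ∈ s, x ≤ z ∧ z ≤ y) : ∃ i k, s = replicate i x ++ replicate k y := by
  induction s with
  | nil => exact ⟨0, 0, rfl⟩
  | cons a s ih =>
    obtain ⟨g1, g2⟩ := pairwise_cons.1 g
    obtain ⟨i, k, rfl⟩ := ih g2 fun z hz => h z (mem_cons_of_mem _ hz)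
    have := h a (by simp)
    by_cases e : a = x
    · exact ⟨i + 1, k, by simp [e, replicate_succ]⟩
    · obtain rfl : a = y := by omega
      rcases i with _ | i
      · exact ⟨0, k + 1, by simp [replicate_succ]⟩
      · have := g1 x (by simp [replicate_succ])
        omega

/-- Every word equivalent to `U m` contains exactly one of the patterns `2 1 0` and `4 3 2`. -/
theorem xor {m : ℕ} (hm : 3 ≤ m) {w : List ℕ} (h : Le (U m) w) (g : Le w (U m)) :
    ([2, 1, 0] <+ w ↔ ¬ [4, 3, 2] <+ w) := by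
  have cnt : ∀ x, w.count x = (U m).count x := fun x => le_antisymm (g.count x) (h.count x)
  have c0 : w.count 0 = m := by simp [cnt, U, X, count_replicate]
  have c1 : w.count 1 = 3 := by simp [cnt, U, X, count_replicate]
  have c2 : w.count 2 = 1 := by simp [cnt, U, X, count_replicate]
  have c3 : w.count 3 = 3 := by simp [cnt, U, X, count_replicate]
  have c4 : w.count 4 = m := by simp [cnt, U, X, count_replicate]
  have ub : ∀ s, s <+ w → s.Pairwise (· ≤ ·) → (∀ x ∈ s, x ≤ 4) → s.length ≤ m + 1 := by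
    intro s a1 a2 a3
    obtain ⟨t, b1, b2, -, b4⟩ := g 0 4 _ ⟨s, a1, a2, fun x hx => ⟨x.zero_le, a3 x hx⟩, rfl⟩
    exact b4 ▸ Ubound hm b1 b2
  have mid : ∀ p q k, 1 ≤ p → q ≤ 3 → Inc w p q k → ∃ t ∈ ([3, 2, 1, 1, 3, 3, 1] : List ℕ).sublists,
      t.Pairwise (· ≤ ·) ∧ (∀ x ∈ t, p ≤ x ∧ x ≤ q) ∧ t.length = k := by
    intro p q k a1 a2 a3
    obtain ⟨t, b1, b2, b3, b4⟩ := g p q k a3
    exact ⟨t, mem_sublists.2 (Umid b1 fun x hx => by have := b3 x hx; omega), b2, b3, b4⟩
  have m13 : ¬ Inc w 1 3 5 := fun k => by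
    have := mid 1 3 5 le_rfl le_rfl k
    revert this; decide +kernel
  have m12 : ¬ Inc w 1 2 4 := fun k => by
    have := mid 1 2 4 le_rfl (by omega) k
    revert this; decide +kernel
  have m23 : ¬ Inc w 2 3 4 := fun k => by
    have := mid 2 3 4 (by omega) le_rfl k
    revert this; decide +kernel
  have srt : ∀ t, t <+ [1, 1, 1, 2, 3, 3, 3] → t.Pairwise (· ≤ ·) ∧ ∀ x ∈ t, x ≤ 4 := fun t ht =>
    ⟨Pairwise.sublist ht (by decide), fun x hx => by
      have := ht.subset hx
      simp at this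
      omega⟩
  have T0 : ∀ δ, δ <:+ w → ∀ t, t <+ δ → t <+ [1, 1, 1, 2, 3, 3, 3] →
      t.length ≤ δ.count 0 + 1 := by
    rintro δ ⟨γ, rfl⟩ t a1 a2
    have := ub (replicate (γ.count 0) 0 ++ t) ((replicate_sublist_iff.2 le_rfl).append a1)
      (pairwise_append.2 ⟨by simp, (srt t a2).1, by simp +contextual [mem_replicate]⟩)
      (fun x hx => by
        rcases mem_append.1 hx with hx | hx
        · simp [mem_replicate] at hx; omega
        · exact (srt t a2).2 x hx)
    simp at this c0
    omega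
  have T4 : ∀ δ, δ <:+ w.reverse → ∀ t, t <+ δ → t <+ [3, 3, 3, 2, 1, 1, 1] →
      t.length ≤ δ.count 4 + 1 := by
    rintro δ ⟨γ, e⟩ t a1 a2
    obtain rfl : w = δ.reverse ++ γ.reverse := by rw [← reverse_append, e, reverse_reverse]
    have a3 := srt t.reverse a2.reverse
    have := ub (t.reverse ++ replicate (γ.reverse.count 4) 4)
      (a1.reverse.append (replicate_sublist_iff.2 le_rfl))
      (pairwise_append.2 ⟨a3.1, by simp, fun x hx y hy => by
        rw [(mem_replicate.1 hy).2]; exact a3.2 x hx⟩)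
      (fun x hx => by
        rcases mem_append.1 hx with hx | hx
        · exact a3.2 x hx
        · simp [mem_replicate] at hx; omega)
    simp at this c4
    omega
  obtain ⟨A, B, e⟩ := append_of_mem (count_pos_iff.1 (c2 ▸ Nat.one_pos : 0 < w.count 2))
  have hA : 2 ∉ A := count_eq_zero.1 (by rw [e] at c2; simp at c2; omega)
  have hB : 2 ∉ B := count_eq_zero.1 (by rw [e] at c2; simp at c2; omega)
  have e' : w.reverse = B.reverse ++ 2 :: A.reverse := by simp [e]
  have five : 2 ≤ A.count 1 → 2 ≤ B.count 3 → False := fun a1 a2 =>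
    m13 ⟨replicate 2 1 ++ 2 :: replicate 2 3, e ▸ (replicate_sublist_iff.2 a1).append
      ((replicate_sublist_iff.2 a2).cons_cons 2), by decide, by decide, rfl⟩
  have gen : ∀ (a b : ℕ) (w A B : List ℕ), w = A ++ 2 :: B → a ≠ b → b ≠ 2 → w.count b = 3 →
      (∀ δ, δ <:+ w → [b, b] <+ δ → 2 ≤ δ.count a + 1) → ¬ [2, b, a] <+ w → 2 ≤ A.count b := by
    intro a b w A B e ab b2 c1 T n
    by_contra k
    have k2 : [b, b] <+ B := replicate_sublist_iff (n := 2).2 (by
      rw [e] at c1; simp [count_cons, b2.symm] at c1; omega)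
    obtain ⟨l1, l2, e1, k3⟩ := pos k2
    have := T (b :: l2) ⟨A ++ 2 :: l1, by simp [e, e1]⟩ (k3.cons_cons b)
    rw [count_cons_of_ne ab.symm] at this
    have k4 : a ∈ l2 := count_pos_iff.1 (by omega)
    refine n (e ▸ (nil_sublist A).append (Sublist.cons_cons 2 ?_))
    exact e1 ▸ (nil_sublist l1).append ((singleton_sublist.2 k4).cons_cons b)
  have tl : ∀ (x y : ℕ) (A B : List ℕ), 2 ∉ A → [2, x, y] <+ A ++ 2 :: B → [x, y] <+ B := by
    intro x y A B n k
    obtain ⟨s1, s2, f, a1, a2⟩ := sublist_append_iff.1 k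
    rcases s1 with _ | ⟨z, s1⟩
    · simp at f; subst f; simpa using a2
    · simp at f; exact absurd (a1.subset (by simp [f.1])) n
  constructor
  · intro k1 k2
    have k3 : [1, 0] <+ B := tl _ _ _ _ hA (e ▸ k1)
    have k4 : [3, 4] <+ A.reverse := tl _ _ _ _ (by simpa using hB) (e' ▸ k2.reverse)
    have h0 : ∃ δ k, δ <:+ w ∧ 1 ≤ k ∧ k ≤ δ.count 1 ∧ δ.count 0 + 1 ≤ k := by
      obtain ⟨s, a1, a2, a3, a4⟩ := h 0 1 (m + 1) ⟨replicate m 0 ++ [1], by
        simp only [U, X]
        exact (((sublist_append_right _ _).append (Sublist.refl _)).cons 2).cons 3,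
        by simp [pairwise_append], by simp [mem_replicate]; omega, by simp⟩
      obtain ⟨i, k, rfl⟩ := two rfl a2 a3
      obtain ⟨γ, δ, e1, b1, b2⟩ := append_sublist_iff.1 a1
      have b3 := replicate_sublist_iff.1 b1
      rw [e1] at c0
      simp at c0 a4
      exact ⟨δ, k, e1 ▸ suffix_append _ _, by omega, replicate_sublist_iff.1 b2, by omega⟩
    have h4 : ∃ δ k, δ <:+ w.reverse ∧ 1 ≤ k ∧ k ≤ δ.count 3 ∧ δ.count 4 + 1 ≤ k := by
      obtain ⟨s, a1, a2, a3, a4⟩ := h 3 4 (m + 1) ⟨3 :: replicate m 4, by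
        simp only [U, X, append_assoc]
        exact ((sublist_append_left _ _).cons 2).cons_cons 3,
        by simp [mem_replicate], by simp [mem_replicate], by simp⟩
      obtain ⟨i, k, rfl⟩ := two rfl a2 a3
      obtain ⟨γ, δ, e1, b1, b2⟩ := append_sublist_iff.1 a1
      have b3 := replicate_sublist_iff.1 b2
      have b4 := replicate_sublist_iff.1 b1
      rw [e1] at c4
      simp at c4 a4 b3
      exact ⟨γ.reverse, i, by simp [e1], by omega, by simpa using b4, by simp; omega⟩
    obtain ⟨s, a1, a2, a3, a4⟩ := h 1 3 4 ⟨[1, 1, 3, 3], by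
      simp only [U, X]
      exact ((((sublist_append_right _ _).trans (sublist_append_left _ _)).trans
        (sublist_append_left _ _)).cons 2).cons 3, by decide, by decide, rfl⟩
    obtain ⟨x1, x2, x3, x4, rfl⟩ : ∃ x1 x2 x3 x4, s = [x1, x2, x3, x4] := by
      match s, a4 with
      | [x1, x2, x3, x4], _ => exact ⟨_, _, _, _, rfl⟩
    have r1 := a3 x1 (by simp)
    have r4 := a3 x4 (by simp)
    have o : x1 ≤ x2 ∧ x2 ≤ x3 ∧ x3 ≤ x4 := by simp at a2; omega
    obtain rfl : x1 = 1 := by
      by_contra k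
      exact m23 ⟨_, a1, a2, by simp; omega, rfl⟩
    obtain rfl : x4 = 3 := by
      by_contra k
      exact m12 ⟨_, a1, a2, by simp; omega, rfl⟩
    have n22 : ¬ (x2 = 2 ∧ x3 = 2) := by
      rintro ⟨rfl, rfl⟩
      have := a1.count_le 2
      simp at this
      omega
    have P := lemA (a := 0) (d := 3) (by omega) (by omega) (by omega) (by omega) e hA hB c1 T0 h0 k3
      a1 (by simp; omega)
    have Q := lemA (a := 4) (b := 3) (d := 1) (s := [x3, x2, 1]) (by omega) (by omega) (by omega)
      (by omega) e' (by simpa using hB) (by simpa using hA) (by simpa using c3) T4 h4 k4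
      (by simpa using a1.reverse) (by simp; omega)
    simp at P Q
    exact five (by omega) (by omega)
  · intro k2
    by_contra k1
    have := gen 4 3 w.reverse _ _ e' (by omega) (by omega) (by simpa using c3)
      (fun δ a1 a2 => T4 δ a1 _ a2 (by decide)) (fun k => k2 (by simpa using k.reverse))
    exact five (gen 0 1 w A B e (by omega) (by omega) c1
      (fun δ a1 a2 => T0 δ a1 _ a2 (by decide)) k1) (by simpa using this)

end Pool.Agent.H.MP_be768e_al
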