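import Mathlib
import Pool.Agent.H.MP_be768e_al.C

set_option autoImplicit false

namespace Pool.Agent.H.MP_be768e_al

open List

theorem short {m K : ℕ} (hm : 2 * K + 3 ≤ m) {a b x y : List ℕ} (hx : x.length ≤ K)
    (h : Le x y) (g : Le y x) (h1 : Le (U m) (a ++ x ++ b)) (h2 : Le (a ++ x ++ b) (U m))
    (k : [2, 1, 0] <+ a ++ x ++ b) : [2, 1, 0] <+ a ++ y ++ b := by
  by_contra n
  have e1 : Le (a ++ x ++ b) (a ++ y ++ b) := ((Le.refl a).append h).append (Le.refl b)
  have e2 : Le (a ++ y ++ b) (a ++ x ++ b) := ((Le.refl a).append g).append (Le.refl b)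
  have n0 : 0 ∉ b := fun o => n (step h g (by omega) (by omega) (by omega) (by omega) (Or.inl o) k)
  have k1 := (xor (by omega) h1 h2).1 k
  have k2 : [4, 3, 2] <+ a ++ y ++ b := by
    by_contra k2
    exact n ((xor (by omega) (h1.trans e1) (e2.trans h2)).2 k2)
  have n4 : 4 ∉ a := fun o =>
    k1 (step g h (by omega) (by omega) (by omega) (by omega) (Or.inr o) k2)
  have c0 := h1.count 0
  have c4 := h1.count 4
  have d0 := count_le_length (a := 0) (l := x)
  have d4 := count_le_length (a := 4) (l := x)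
  simp [U, X, count_replicate, count_eq_zero.2 n0, count_eq_zero.2 n4] at c0 c4
  obtain ⟨t, b1, b2, -, b4⟩ := h2 0 4 _ ⟨replicate (a.count 0) 0 ++ replicate (b.count 4) 4,
    ((replicate_sublist_iff.2 le_rfl).trans (sublist_append_left a x)).append
      (replicate_sublist_iff.2 le_rfl), by simp [pairwise_append, mem_replicate],
    by simp [mem_replicate]; omega, rfl⟩
  have := Ubound (by omega) b1 b2
  simp at b4
  omega

variable {β : Type}

/-- The grammic congruence read through a labelling of the letters. -/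
def gcon (f : β → ℕ) : Con (FreeMonoid β) where
  r u v := Le (u.toList.map f) (v.toList.map f) ∧ Le (v.toList.map f) (u.toList.map f)
  iseqv := ⟨fun _ => ⟨Le.refl _, Le.refl _⟩, fun h => ⟨h.2, h.1⟩,
    fun h g => ⟨h.1.trans g.1, g.2.trans h.2⟩⟩
  mul' h g := by
    simp only [FreeMonoid.toList_mul, map_append]
    exact ⟨h.1.append g.1, h.2.append g.2⟩

def sep (f : β → ℕ) (m : ℕ) : Con (FreeMonoid β) where
  r u v := gcon f u v ∧ ∀ a b : List ℕ, Le (U m) (a ++ u.toList.map f ++ b) →
    Le (a ++ u.toList.map f ++ b) (U m) →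
      ([2, 1, 0] <+ a ++ u.toList.map f ++ b ↔ [2, 1, 0] <+ a ++ v.toList.map f ++ b)
  iseqv := ⟨fun _ => ⟨(gcon f).refl _, fun _ _ _ _ => Iff.rfl⟩,
    fun h => ⟨(gcon f).symm h.1, fun a b h1 h2 => (h.2 a b
      (h1.trans (((Le.refl a).append h.1.2).append (Le.refl b)))
      ((((Le.refl a).append h.1.1).append (Le.refl b)).trans h2)).symm⟩,
    fun h g => ⟨(gcon f).trans h.1 g.1, fun a b h1 h2 => (h.2 a b h1 h2).trans (g.2 a b
      (h1.trans (((Le.refl a).append h.1.1).append (Le.refl b)))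
      ((((Le.refl a).append h.1.2).append (Le.refl b)).trans h2))⟩⟩
  mul' {w x y z} h g := ⟨(gcon f).mul h.1 g.1, fun a b h1 h2 => by
    simp only [FreeMonoid.toList_mul, map_append] at *
    have i1 := h.2 a (y.toList.map f ++ b) (by simpa using h1) (by simpa using h2)
    have j1 := ((Le.refl a).append h.1.1).append (Le.refl (y.toList.map f ++ b))
    have j2 := ((Le.refl a).append h.1.2).append (Le.refl (y.toList.map f ++ b))
    have i2 := g.2 (a ++ x.toList.map f) b
      (Le.trans (by simpa using h1) (by simpa using j1))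
      (Le.trans (by simpa using j2) (by simpa using h2))
    simpa using Iff.trans (by simpa using i1) i2⟩

theorem not_fg (f : β → ℕ) (hf : ∀ i ≤ 4, ∃ x, f x = i)
    (R : FreeMonoid β → FreeMonoid β → Prop) (hR : {p : _ × _ | R p.1 p.2}.Finite) :
    conGen R ≠ gcon f := by
  intro e
  obtain ⟨K, hK⟩ := (hR.image fun p => p.1.toList.length + p.2.toList.length).bddAbove
  have le : conGen R ≤ sep f (2 * K + 3) := Con.conGen_le.2 fun x y hxy => by
    have g : gcon f x y := e ▸ ConGen.Rel.of x y hxy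
    have := hK ⟨(x, y), hxy, rfl⟩
    simp only at this
    refine ⟨g, fun a b h1 h2 => ⟨short le_rfl (by simp; omega) g.1 g.2 h1 h2,
      short (K := K) le_rfl (by simp; omega) g.2 g.1 ?_ ?_⟩⟩
    · exact h1.trans (((Le.refl a).append g.1).append (Le.refl b))
    · exact (((Le.refl a).append g.2).append (Le.refl b)).trans h2
  have lift : ∀ l : List ℕ, (∀ i ∈ l, i ≤ 4) → ∃ u : FreeMonoid β, u.toList.map f = l := by
    intro l hl
    choose s hs using hf
    induction l with
    | nil => exact ⟨1, rfl⟩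
    | cons a l ih =>
      obtain ⟨u, hu⟩ := ih fun i hi => hl i (mem_cons_of_mem _ hi)
      exact ⟨FreeMonoid.of (s a (hl a (by simp))) * u, by simp [hu, hs]⟩
  obtain ⟨u, hu⟩ := lift (U (2 * K + 3)) (by simp [U, X, mem_replicate])
  obtain ⟨v, hv⟩ := lift (V (2 * K + 3)) (by simp [V, X, mem_replicate])
  have g : gcon f u v := by
    change Le _ _ ∧ Le _ _
    rw [hu, hv]
    exact ⟨UV _, VU _⟩
  have := (le (e ▸ g : conGen R u v)).2 [] [] (by simp [hu, Le.refl]) (by simp [hu, Le.refl])
  simp only [hu, hv, nil_append, append_nil] at this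
  have k : [2, 1, 0] <+ U (2 * K + 3) := by
    simp only [U, X, append_assoc]
    refine ((Sublist.trans ?_ (sublist_append_right _ _)).cons_cons 2).cons 3
    simp [replicate_succ]
  refine (xor (by omega) (UV _) (VU _)).1 (this.1 k) ?_
  simp only [V, X, append_assoc]
  refine Sublist.cons 3 (Sublist.append (l₁ := [4]) (by simp [mem_replicate]) ?_)
  refine Sublist.append (l₁ := [3]) (by simp) ?_
  exact Sublist.trans (by simp) (sublist_append_right _ _)

theorem fg_of_fp (c : Con (FreeMonoid β)) [Finite β] {A : Type}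
    (R : FreeMonoid A → FreeMonoid A → Prop) (hR : {p : _ × _ | R p.1 p.2}.Finite)
    (e : PresentedMonoid R ≃* c.Quotient) : ∃ S : FreeMonoid β → FreeMonoid β → Prop,
      {p : _ × _ | S p.1 p.2}.Finite ∧ conGen S = c := by
  let g : FreeMonoid A →* c.Quotient := e.toMonoidHom.comp (conGen R).mk'
  have gs : Function.Surjective g := e.surjective.comp (conGen R).mk'_surjective
  choose i hi using fun a : A => c.mk'_surjective (g (FreeMonoid.of a))
  choose j hj using fun b : β => gs (c.mk' (FreeMonoid.of b))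
  have i1 : c.mk'.comp (FreeMonoid.lift i) = g := FreeMonoid.hom_eq fun a => by simp [← hi]
  have j1 : g.comp (FreeMonoid.lift j) = c.mk' := FreeMonoid.hom_eq fun a => by simp [hj]
  let I := FreeMonoid.lift i
  let J := FreeMonoid.lift j
  have i2 : ∀ a, c.mk' (I a) = g a := fun a => DFunLike.congr_fun i1 a
  have j2 : ∀ a, g (J a) = c.mk' a := fun a => DFunLike.congr_fun j1 a
  let S : FreeMonoid β → FreeMonoid β → Prop := fun u v =>
    (∃ x y, R x y ∧ u = I x ∧ v = I y) ∨ ∃ b, u = FreeMonoid.of b ∧ v = I (J (FreeMonoid.of b))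
  refine ⟨S, ((hR.image fun p => (I p.1, I p.2)).union (Set.finite_range fun b : β =>
    (FreeMonoid.of b, I (J (FreeMonoid.of b))))).subset ?_, le_antisymm ?_ ?_⟩
  · rintro ⟨u, v⟩ (⟨x, y, h, rfl, rfl⟩ | ⟨b, rfl, rfl⟩)
    · exact Or.inl ⟨(x, y), h, rfl⟩
    · exact Or.inr ⟨b, rfl⟩
  · refine Con.conGen_le.2 ?_
    rintro u v (⟨x, y, h, rfl, rfl⟩ | ⟨b, rfl, rfl⟩)
    · refine c.eq.1 ?_
      change c.mk' _ = c.mk' _
      rw [i2, i2]
      exact congrArg e ((conGen R).eq.2 (ConGen.Rel.of x y h))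
    · refine c.eq.1 ?_
      change c.mk' _ = c.mk' _
      rw [i2, j2]
  · have a1 : ∀ u, conGen S u (I (J u)) := by
      intro u
      induction u using FreeMonoid.inductionOn' with
      | one => simpa using (conGen S).refl 1
      | of_mul b u ih =>
        rw [map_mul J, map_mul I]
        exact (conGen S).mul (ConGen.Rel.of _ _ (Or.inr ⟨b, rfl, rfl⟩)) ih
    have a2 : conGen R ≤ (conGen S).comap I (map_mul I) :=
      Con.conGen_le.2 fun x y h => ConGen.Rel.of _ _ (Or.inl ⟨x, y, h, rfl, rfl⟩)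
    intro u v h
    have : g (J u) = g (J v) := by rw [j2, j2]; exact c.eq.2 h
    have : conGen R (J u) (J v) := (conGen R).eq.1 (e.injective this)
    exact (conGen S).trans (a1 u) ((conGen S).trans (a2 this) ((conGen S).symm (a1 v)))

theorem Le_map {n : ℕ} {u v : List (Fin n)} :
    Le (u.map Fin.val) (v.map Fin.val) ↔ ∀ p q, p ≤ q → ∀ k, Inc u p q k → Inc v p q k := by
  constructor
  · rintro h p q - k ⟨s, h1, h2, h3, h4⟩
    obtain ⟨t, a1, a2, a3, a4⟩ := h p q k ⟨s.map Fin.val, h1.map _, pairwise_map.2 h2,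
      by simpa using h3, by simpa using h4⟩
    obtain ⟨t, b1, rfl⟩ := sublist_map_iff.1 a1
    exact ⟨t, b1, (pairwise_map (f := Fin.val)).1 a2, by simpa using a3, by simpa using a4⟩
  · rintro h p q k ⟨s, h1, h2, h3, h4⟩
    obtain ⟨s, b1, rfl⟩ := sublist_map_iff.1 h1
    rcases s with _ | ⟨x, s⟩
    · exact ⟨[], nil_sublist _, Pairwise.nil, by simp, h4⟩
    · have a := h3 x (by simp)
      have := x.2
      obtain ⟨t, a1, a2, a3, a4⟩ := h ⟨p, by omega⟩ ⟨min q (n - 1), by omega⟩
        (by simp [Fin.le_def]; omega) k ⟨x :: s, b1, (pairwise_map (f := Fin.val)).1 h2, fun y hy => by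
          have := h3 y (mem_map_of_mem hy)
          have := y.2
          simp [Fin.le_def]
          omega, by simpa using h4⟩
      refine ⟨t.map Fin.val, a1.map _, pairwise_map.2 a2, fun y hy => ?_, by simpa using a4⟩
      obtain ⟨z, hz, rfl⟩ := mem_map.1 hy
      have := a3 z hz
      simp [Fin.le_def] at this
      omega

theorem Inc_iff {α : Type} [LinearOrder α] (u : List α) (p q : α) (k : ℕ) :
    Inc u p q k ↔ k ≤ sSup {k | Inc u p q k} := by
  have bd : BddAbove {k | Inc u p q k} := ⟨u.length, by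
    rintro _ ⟨s, h, -, -, rfl⟩; exact h.length_le⟩
  refine ⟨fun h => le_csSup bd h, fun h => ?_⟩
  obtain ⟨s, h1, h2, h3, h4⟩ := Nat.sSup_mem (s := {k | Inc u p q k})
    ⟨0, [], nil_sublist _, Pairwise.nil, by simp, rfl⟩ bd
  exact ⟨s.take k, (take_sublist _ _).trans h1, h2.sublist (take_sublist _ _),
    fun x hx => h3 x (mem_of_mem_take hx), by simp [h4, h]⟩

end Pool.Agent.H.MP_be768e_al
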